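import Pool.Agent.Helper141.CC.Lex

set_option autoImplicit false

/-!
# Ramsey colourings of small communication complexity: reading two different letters by comparisons
-/

namespace Pool.Agent.Helper141.CC

open Finset

/-- letters: words of `s` bits -/
abbrev Bits (s : ℕ) : Type := Fin s → Bool

/-- an injective numbering of the letters -/
noncomputable def num {s : ℕ} (z : Bits s) : ℕ := (Fintype.equivFin (Bits s) z).val

theorem num_lt {s : ℕ} (z : Bits s) : num z < 2 ^ s := by
  have h := (Fintype.equivFin (Bits s) z).isLt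
  have hc : Fintype.card (Bits s) = 2 ^ s := by simp [Bits]
  unfold num
  omega

theorem num_inj {s : ℕ} : Function.Injective (num : Bits s → ℕ) := by
  intro a b h
  exact (Fintype.equivFin (Bits s)).injective (Fin.ext h)

/-- the order of the letters by rank, then by number -/
noncomputable def ord {s : ℕ} (r : Bits s → ℕ) (z : Bits s) : ℕ := r z * 2 ^ s + num z

theorem ord_inj {s : ℕ} (r : Bits s → ℕ) : Function.Injective (ord r) := by
  intro a b h
  unfold ord at h
  have h1 := num_lt a
  have h2 := num_lt b
  have h3 : r a = r b := by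
    rcases lt_trichotomy (r a) (r b) with h4 | h4 | h4
    · have : (r a + 1) * 2 ^ s ≤ r b * 2 ^ s := Nat.mul_le_mul_right _ h4
      have : (r a + 1) * 2 ^ s = r a * 2 ^ s + 2 ^ s := by ring
      omega
    · exact h4
    · have : (r b + 1) * 2 ^ s ≤ r a * 2 ^ s := Nat.mul_le_mul_right _ h4
      have : (r b + 1) * 2 ^ s = r b * 2 ^ s + 2 ^ s := by ring
      omega
  rw [h3] at h
  exact num_inj (by omega)

theorem ord_lt {s : ℕ} (r : Bits s → ℕ) (hr : ∀ z, r z ≤ 2) (z : Bits s) : ord r z < 3 * 2 ^ s := by
  have h1 := num_lt z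
  have h2 : r z * 2 ^ s ≤ 2 * 2 ^ s := Nat.mul_le_mul_right _ (hr z)
  unfold ord
  omega

theorem ord_le_of_lt {s : ℕ} (r : Bits s → ℕ) {u v : Bits s} (h : r u < r v) : ord r u ≤ ord r v := by
  have h1 := num_lt u
  have h2 : (r u + 1) * 2 ^ s ≤ r v * 2 ^ s := Nat.mul_le_mul_right _ h
  have h3 : (r u + 1) * 2 ^ s = r u * 2 ^ s + 2 ^ s := by ring
  unfold ord
  omega

theorem not_ord_le_of_lt {s : ℕ} (r : Bits s → ℕ) {u v : Bits s} (h : r v < r u) :
    ¬ ord r u ≤ ord r v := by
  have h1 := num_lt v
  have h2 : (r v + 1) * 2 ^ s ≤ r u * 2 ^ s := Nat.mul_le_mul_right _ h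
  have h3 : (r v + 1) * 2 ^ s = r v * 2 ^ s + 2 ^ s := by ring
  unfold ord
  omega

theorem ord_le_iff_of_eq {s : ℕ} (r : Bits s → ℕ) {u v : Bits s} (h : r u = r v) :
    ord r u ≤ ord r v ↔ num u ≤ num v := by
  unfold ord
  rw [h]
  omega

/-- read the bits in the list of both letters, where the bit `c` of the first letter is `cu` and the
bit `c` of the second one is not -/
noncomputable def readTree {s : ℕ} (h : Bits s → Bits s → Bool) (c : Fin s) (cu : Bool) :
    List (Fin s) → Bits s → Bits s → OTree (Bits s)
  | [], pu, pv => .stop (h pu pv)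
  | b :: l, pu, pv =>
    .query (ord (fun z => if z c = cu then (if z b = true then 2 else 0) else 1))
      (.query (ord (fun z => if z c = cu then 1 else (if z b = true then 2 else 0)))
        (readTree h c cu l (Function.update pu b false) (Function.update pv b true))
        (readTree h c cu l (Function.update pu b false) (Function.update pv b false)))
      (.query (ord (fun z => if z c = cu then 1 else (if z b = true then 2 else 0)))
        (readTree h c cu l (Function.update pu b true) (Function.update pv b true))
        (readTree h c cu l (Function.update pu b true) (Function.update pv b false)))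

theorem readTree_depth {s : ℕ} (h : Bits s → Bits s → Bool) (c : Fin s) (cu : Bool)
    (l : List (Fin s)) : ∀ pu pv, (readTree h c cu l pu pv).depth = 2 * l.length := by
  induction l with
  | nil => intro pu pv; rfl
  | cons b l ih =>
    intro pu pv
    simp only [readTree, OTree.depth, ih, List.length_cons]
    omega

theorem readTree_ok {s : ℕ} (h : Bits s → Bits s → Bool) (c : Fin s) (cu : Bool)
    (l : List (Fin s)) : ∀ pu pv, (readTree h c cu l pu pv).Ok (3 * 2 ^ s) := by
  induction l with
  | nil => intro pu pv; trivial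
  | cons b l ih =>
    intro pu pv
    refine ⟨ord_inj _, ord_lt _ ?_, ⟨ord_inj _, ord_lt _ ?_, ih _ _, ih _ _⟩,
      ⟨ord_inj _, ord_lt _ ?_, ih _ _, ih _ _⟩⟩
    · intro z; split_ifs <;> omega
    · intro z; split_ifs <;> omega
    · intro z; split_ifs <;> omega

theorem readTree_ans {s : ℕ} (h : Bits s → Bits s → Bool) (c : Fin s) (cu : Bool) (u v : Bits s)
    (hu : u c = cu) (hv : ¬ v c = cu) (l : List (Fin s)) : ∀ pu pv : Bits s,
    (∀ b, b ∈ l ∨ (pu b = u b ∧ pv b = v b)) → (readTree h c cu l pu pv).ans u v = h u v := by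
  induction l with
  | nil =>
    intro pu pv hb
    have h1 : pu = u := funext fun b => by
      rcases hb b with h2 | h2
      · exact absurd h2 (by simp)
      · exact h2.1
    have h2 : pv = v := funext fun b => by
      rcases hb b with h3 | h3
      · exact absurd h3 (by simp)
      · exact h3.2
    rw [h1, h2]; rfl
  | cons b l ih =>
    intro pu pv hb
    have hstep : ∀ (x y : Bool), u b = x → v b = y →
        ∀ b', b' ∈ l ∨ (Function.update pu b x b' = u b' ∧ Function.update pv b y b' = v b') := by
      intro x y hx hy b'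
      by_cases hbb : b' = b
      · subst hbb
        right
        simp [hx, hy]
      · rcases hb b' with h1 | h1
        · rcases List.mem_cons.1 h1 with h2 | h2
          · exact absurd h2 hbb
          · exact Or.inl h2
        · right
          rw [Function.update_of_ne hbb, Function.update_of_ne hbb]
          exact h1
    set r1 : Bits s → ℕ := fun z => if z c = cu then (if z b = true then 2 else 0) else 1 with hr1
    set r2 : Bits s → ℕ := fun z => if z c = cu then 1 else (if z b = true then 2 else 0) with hr2
    have e1v : r1 v = 1 := by simp only [hr1]; rw [if_neg hv]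
    have e2u : r2 u = 1 := by simp only [hr2]; rw [if_pos hu]
    simp only [readTree, OTree.ans]
    rw [← hr1, ← hr2]
    cases hub : u b with
    | false =>
      have e1u : r1 u = 0 := by simp only [hr1]; rw [if_pos hu, hub]; rfl
      rw [if_pos (ord_le_of_lt r1 (by omega))]
      cases hvb : v b with
      | true =>
        have e2v : r2 v = 2 := by simp only [hr2]; rw [if_neg hv, hvb]; rfl
        rw [if_pos (ord_le_of_lt r2 (by omega))]
        exact ih _ _ (hstep _ _ hub hvb)
      | false =>
        have e2v : r2 v = 0 := by simp only [hr2]; rw [if_neg hv, hvb]; rfl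
        rw [if_neg (not_ord_le_of_lt r2 (by omega))]
        exact ih _ _ (hstep _ _ hub hvb)
    | true =>
      have e1u : r1 u = 2 := by simp only [hr1]; rw [if_pos hu, hub]; rfl
      rw [if_neg (not_ord_le_of_lt r1 (by omega))]
      cases hvb : v b with
      | true =>
        have e2v : r2 v = 2 := by simp only [hr2]; rw [if_neg hv, hvb]; rfl
        rw [if_pos (ord_le_of_lt r2 (by omega))]
        exact ih _ _ (hstep _ _ hub hvb)
      | false =>
        have e2v : r2 v = 0 := by simp only [hr2]; rw [if_neg hv, hvb]; rfl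
        rw [if_neg (not_ord_le_of_lt r2 (by omega))]
        exact ih _ _ (hstep _ _ hub hvb)

/-- look for a bit in the list in which the letters differ, then read both letters -/
noncomputable def findTree {s : ℕ} (h : Bits s → Bits s → Bool) : List (Fin s) → OTree (Bits s)
  | [] => .stop false
  | b :: l =>
    .query (ord (fun z => if z b = true then 1 else 0))
      (.query (ord (fun z => if z b = true then 0 else 1))
        (findTree h l)
        (readTree h b false (List.finRange s) (fun _ => false) (fun _ => false)))
      (.query (ord (fun z => if z b = true then 0 else 1))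
        (readTree h b true (List.finRange s) (fun _ => false) (fun _ => false))
        (findTree h l))

theorem findTree_depth {s : ℕ} (h : Bits s → Bits s → Bool) (l : List (Fin s)) :
    (findTree h l).depth ≤ 2 * l.length + 2 * s := by
  induction l with
  | nil => simp [findTree, OTree.depth]
  | cons b l ih =>
    simp only [findTree, OTree.depth, readTree_depth, List.length_finRange, List.length_cons]
    omega

theorem findTree_ok {s : ℕ} (h : Bits s → Bits s → Bool) (l : List (Fin s)) :
    (findTree h l).Ok (3 * 2 ^ s) := by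
  induction l with
  | nil => trivial
  | cons b l ih =>
    refine ⟨ord_inj _, ord_lt _ ?_, ⟨ord_inj _, ord_lt _ ?_, ih, readTree_ok _ _ _ _ _ _⟩,
      ⟨ord_inj _, ord_lt _ ?_, readTree_ok _ _ _ _ _ _, ih⟩⟩
    · intro z; split_ifs <;> omega
    · intro z; split_ifs <;> omega
    · intro z; split_ifs <;> omega

theorem findTree_ans {s : ℕ} (h : Bits s → Bits s → Bool) (u v : Bits s) (l : List (Fin s))
    (hl : ∃ b ∈ l, u b ≠ v b) : (findTree h l).ans u v = h u v := by
  induction l with
  | nil => obtain ⟨b, hb, _⟩ := hl; simp at hb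
  | cons b l ih =>
    set r1 : Bits s → ℕ := fun z => if z b = true then 1 else 0 with hr1
    set r2 : Bits s → ℕ := fun z => if z b = true then 0 else 1 with hr2
    have hall : ∀ b' : Fin s, b' ∈ List.finRange s ∨
        ((fun _ => false : Bits s) b' = u b' ∧ (fun _ => false : Bits s) b' = v b') :=
      fun b' => Or.inl (List.mem_finRange b')
    simp only [findTree, OTree.ans]
    rw [← hr1, ← hr2]
    cases hub : u b with
    | false =>
      have e1u : r1 u = 0 := by simp only [hr1]; rw [hub]; rfl
      have e2u : r2 u = 1 := by simp only [hr2]; rw [hub]; rfl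
      cases hvb : v b with
      | true =>
        have e1v : r1 v = 1 := by simp only [hr1]; rw [hvb]; rfl
        have e2v : r2 v = 0 := by simp only [hr2]; rw [hvb]; rfl
        rw [if_pos (ord_le_of_lt r1 (by omega)), if_neg (not_ord_le_of_lt r2 (by omega))]
        exact readTree_ans h b false u v hub (by rw [hvb]; exact Bool.noConfusion) _ _ _ hall
      | false =>
        have e1v : r1 v = 0 := by simp only [hr1]; rw [hvb]; rfl
        have e2v : r2 v = 1 := by simp only [hr2]; rw [hvb]; rfl
        have hl' : ∃ b ∈ l, u b ≠ v b := by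
          obtain ⟨b', hb', hne⟩ := hl
          rcases List.mem_cons.1 hb' with h1 | h1
          · subst h1; exact absurd (hub.trans hvb.symm) hne
          · exact ⟨b', h1, hne⟩
        have i1 := ord_le_iff_of_eq r1 (e1u.trans e1v.symm)
        have i2 := ord_le_iff_of_eq r2 (e2u.trans e2v.symm)
        by_cases hn : num u ≤ num v
        · rw [if_pos (i1.2 hn), if_pos (i2.2 hn)]; exact ih hl'
        · rw [if_neg (fun h' => hn (i1.1 h')), if_neg (fun h' => hn (i2.1 h'))]; exact ih hl'
    | true =>
      have e1u : r1 u = 1 := by simp only [hr1]; rw [hub]; rfl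
      have e2u : r2 u = 0 := by simp only [hr2]; rw [hub]; rfl
      cases hvb : v b with
      | true =>
        have e1v : r1 v = 1 := by simp only [hr1]; rw [hvb]; rfl
        have e2v : r2 v = 0 := by simp only [hr2]; rw [hvb]; rfl
        have hl' : ∃ b ∈ l, u b ≠ v b := by
          obtain ⟨b', hb', hne⟩ := hl
          rcases List.mem_cons.1 hb' with h1 | h1
          · subst h1; exact absurd (hub.trans hvb.symm) hne
          · exact ⟨b', h1, hne⟩
        have i1 := ord_le_iff_of_eq r1 (e1u.trans e1v.symm)
        have i2 := ord_le_iff_of_eq r2 (e2u.trans e2v.symm)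
        by_cases hn : num u ≤ num v
        · rw [if_pos (i1.2 hn), if_pos (i2.2 hn)]; exact ih hl'
        · rw [if_neg (fun h' => hn (i1.1 h')), if_neg (fun h' => hn (i2.1 h'))]; exact ih hl'
      | false =>
        have e1v : r1 v = 0 := by simp only [hr1]; rw [hvb]; rfl
        have e2v : r2 v = 1 := by simp only [hr2]; rw [hvb]; rfl
        rw [if_neg (not_ord_le_of_lt r1 (by omega)), if_pos (ord_le_of_lt r2 (by omega))]
        exact readTree_ans h b true u v hub (by rw [hvb]; exact Bool.noConfusion) _ _ _ hall

/-- pulling back a protocol -/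
def Protocol.pull {V W : Type} (e : W → V) : Protocol V → Protocol W
  | .stop b => .stop b
  | .alice f p q => .alice (fun x => f (e x)) (p.pull e) (q.pull e)
  | .bob f p q => .bob (fun x => f (e x)) (p.pull e) (q.pull e)
  | .compare f g p q => .compare (fun x => f (e x)) (fun y => g (e y)) (p.pull e) (q.pull e)

theorem Protocol.pull_cost {V W : Type} (e : W → V) (P : Protocol V) : (P.pull e).cost = P.cost := by
  induction P with
  | stop b => rfl
  | alice f p q ihp ihq => simp only [Protocol.pull, Protocol.cost, ihp, ihq]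
  | bob f p q ihp ihq => simp only [Protocol.pull, Protocol.cost, ihp, ihq]
  | compare f g p q ihp ihq => simp only [Protocol.pull, Protocol.cost, ihp, ihq]

theorem Protocol.pull_run {V W : Type} (e : W → V) (P : Protocol V) (x y : W) :
    (P.pull e).run x y = P.run (e x) (e y) := by
  induction P with
  | stop b => rfl
  | alice f p q ihp ihq => simp only [Protocol.pull, Protocol.run, ihp, ihq]
  | bob f p q ihp ihq => simp only [Protocol.pull, Protocol.run, ihp, ihq]
  | compare f g p q ihp ihq => simp only [Protocol.pull, Protocol.run, ihp, ihq]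

theorem bdd_comap {V W : Type} {G : SimpleGraph V} {w : ℕ} (h : Bdd G w) (e : W → V)
    (he : Function.Injective e) : Bdd (G.comap e) w := by
  classical
  constructor
  · intro A hA
    rw [← card_image_of_injective A he]
    apply h.1
    intro x hx y hy hxy
    rw [mem_coe, mem_image] at hx hy
    obtain ⟨p, hp, rfl⟩ := hx
    obtain ⟨q, hq, rfl⟩ := hy
    exact hA hp hq (fun e' => hxy (by rw [e']))
  · intro A hA
    rw [← card_image_of_injective A he]
    apply h.2
    intro x hx y hy hxy
    rw [mem_coe, mem_image] at hx hy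
    obtain ⟨p, hp, rfl⟩ := hx
    obtain ⟨q, hq, rfl⟩ := hy
    have h1 := hA hp hq (fun e' => hxy (by rw [e']))
    rw [SimpleGraph.compl_adj] at h1 ⊢
    exact ⟨hxy, h1.2⟩

/-- the base graph -/
theorem exists_base (s : ℕ) (hs : 2 ≤ s) : ∃ G : SimpleGraph (Fin (2 ^ s)), Bdd G (2 * s - 1) := by
  have h1 := Pool.Agent.H818R2.Ram.erdos_lower (k := 2 * s) (by omega)
  have h2 : 2 ^ s < Pool.Agent.H818R2.Ram.R (2 * s) (2 * s) := by
    have : (2 ^ s) ^ 2 < (Pool.Agent.H818R2.Ram.R (2 * s) (2 * s)) ^ 2 := by
      calc (2 ^ s) ^ 2 = 2 ^ (2 * s) := by rw [← pow_mul, Nat.mul_comm]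
        _ < _ := h1
    exact lt_of_pow_lt_pow_left₀ 2 (Nat.zero_le _) this
  have h3 : ¬ Pool.Agent.H818R2.Ram.Arrows (2 ^ s) (2 * s) (2 * s) := Nat.notMem_of_lt_sInf h2
  unfold Pool.Agent.H818R2.Ram.Arrows at h3
  push Not at h3
  obtain ⟨G, h4, h5⟩ := h3
  refine ⟨G, ?_, ?_⟩
  · intro A hA
    by_contra hcon
    have hle : 2 * s ≤ A.card := by omega
    obtain ⟨B, hB, hBc⟩ := exists_subset_card_eq hle
    exact h4 B ((SimpleGraph.isNClique_iff _).2 ⟨hA.subset (by exact_mod_cast hB), hBc⟩)
  · intro A hA
    by_contra hcon
    have hle : 2 * s ≤ A.card := by omega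
    obtain ⟨B, hB, hBc⟩ := exists_subset_card_eq hle
    exact h5 B ((SimpleGraph.isNClique_iff _).2 ⟨hA.subset (by exact_mod_cast hB), hBc⟩)

open Classical in
/-- **Lexicographic powers.** -/
theorem lower_powers (s : ℕ) (hs : 2 ≤ s) (j : ℕ) :
    ∃ G : SimpleGraph (Fin (2 ^ (s * j))), Bdd G ((2 * s - 1) ^ j) ∧
      ∃ P : Protocol (Fin (2 ^ (s * j))), P.cost ≤ 4 * s ∧
        ∀ x y, x ≠ y → (P.run x y = true ↔ G.Adj x y) := by
  obtain ⟨G1, hG1⟩ := exists_base s hs
  have hcard : Fintype.card (Bits s) = 2 ^ s := by simp [Bits]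
  have e1 : Bits s ≃ Fin (2 ^ s) := Fintype.equivFinOfCardEq hcard
  set G0 : SimpleGraph (Bits s) := G1.comap e1 with hG0
  have hb0 : Bdd G0 (2 * s - 1) := bdd_comap hG1 e1 e1.injective
  obtain ⟨P⟩ := exists_power G0 (3 * 2 ^ s) (2 * s - 1) hb0 (fun _ => false) j
  let _ : Fintype P.V := P.fin
  have hcV : Fintype.card P.V = 2 ^ (s * j) := by
    rw [P.card, hcard, pow_mul]
  have e2 : P.V ≃ Fin (2 ^ (s * j)) := Fintype.equivFinOfCardEq hcV
  set T := findTree (fun u v : Bits s => decide (G0.Adj u v)) (List.finRange s) with hT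
  refine ⟨P.G.comap e2.symm, bdd_comap P.bdd _ e2.symm.injective, (T.conv P.F).pull e2.symm, ?_, ?_⟩
  · rw [Protocol.pull_cost, OTree.conv_cost]
    have := findTree_depth (fun u v : Bits s => decide (G0.Adj u v)) (List.finRange s)
    rw [List.length_finRange] at this
    rw [hT]
    omega
  · intro x y hxy
    have hne : e2.symm x ≠ e2.symm y := fun h => hxy (e2.symm.injective h)
    rw [Protocol.pull_run, OTree.conv_run P T (findTree_ok _ _) _ _ hne, hT, findTree_ans]
    · rw [decide_eq_true_iff]
      exact (P.adj _ _ hne).symm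
    · have hd := P.diff _ _ hne
      by_contra hcon
      push Not at hcon
      exact hd (funext fun b => hcon b (List.mem_finRange b))

end Pool.Agent.Helper141.CC
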