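import Pool.Agent.Helper141.CC.Pot
import Pool.Agent.Helper141.CC.Tree

set_option autoImplicit false

/-!
# Ramsey colourings of small communication complexity: the final estimates
-/

namespace Pool.Agent.Helper141.CC

open Finset

/-- The colouring of the edges of `K_n` with colour classes `G` and `Gᶜ` has no monochromatic
`K_k`. -/
def NoMono {n : ℕ} (G : SimpleGraph (Fin n)) (k : ℕ) : Prop := G.CliqueFree k ∧ Gᶜ.CliqueFree k

/-- The colour of the edge `xy` is computed from the ordered pair `(x, y)` by a protocol with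
comparisons with at most `t` steps. -/
def Cost {n : ℕ} (G : SimpleGraph (Fin n)) (t : ℕ) : Prop :=
  ∃ P : Protocol (Fin n), P.cost ≤ t ∧ ∀ x y, x ≠ y → (P.run x y = true ↔ G.Adj x y)

/-- The colour of the edge `xy` is computed from the ordered pair `(x, y)` by a protocol without
comparisons with at most `t` steps: the deterministic communication complexity is at most `t`. -/
def PlainCost {n : ℕ} (G : SimpleGraph (Fin n)) (t : ℕ) : Prop :=
  ∃ P : Protocol (Fin n), P.Plain ∧ P.cost ≤ t ∧ ∀ x y, x ≠ y → (P.run x y = true ↔ G.Adj x y)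

/-- The pairs of different vertices are covered by at most `2 ^ t` monochromatic rectangles
`R i × S i` (of the colour `c i`, apart from the pairs `(x, x)`): the nondeterministic communication
complexity of both colour classes together is at most `t`. -/
def Cover {n : ℕ} (G : SimpleGraph (Fin n)) (t : ℕ) : Prop :=
  ∃ m : ℕ, m ≤ 2 ^ t ∧ ∃ (R S : Fin m → Set (Fin n)) (c : Fin m → Bool),
    (∀ x y, x ≠ y → ∃ i, x ∈ R i ∧ y ∈ S i) ∧
      ∀ i x y, x ≠ y → x ∈ R i → y ∈ S i → (c i = true ↔ G.Adj x y)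

variable {n : ℕ} {G : SimpleGraph (Fin n)}

theorem Cost.mono {t u : ℕ} (h : Cost G t) (htu : t ≤ u) : Cost G u := by
  obtain ⟨P, h1, h2⟩ := h
  exact ⟨P, h1.trans htu, h2⟩

theorem PlainCost.mono {t u : ℕ} (h : PlainCost G t) (htu : t ≤ u) : PlainCost G u := by
  obtain ⟨P, h0, h1, h2⟩ := h
  exact ⟨P, h0, h1.trans htu, h2⟩

theorem Cover.mono {t u : ℕ} (h : Cover G t) (htu : t ≤ u) : Cover G u := by
  obtain ⟨m, h1, h2⟩ := h
  exact ⟨m, h1.trans (Nat.pow_le_pow_right (by norm_num) htu), h2⟩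

theorem side_of {t : ℕ} (h : Cost G t ∨ Cover G t) : Side G t := by
  rcases h with ⟨P, h1, h2⟩ | ⟨m, hm, R, S, c, h1, h2⟩
  · exact side_of_protocol G P t h1 h2
  · exact side_of_cover G t m hm R S c h1 h2

theorem upper' {t k : ℕ} (hn : 1 ≤ n) (hk : 1 ≤ k) (ht : 1 ≤ t) (h : NoMono G k)
    (hc : Cost G t ∨ Cover G t) : Real.log n ≤ 14 * (t * Real.log (2 + (k : ℝ) / t)) :=
  upper (side_of hc) ht hn hk h.1 h.2

theorem noMono_of_bdd {w k : ℕ} (h : Bdd G w) (hk : w < k) : NoMono G k := by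
  constructor
  · intro S hS
    rw [SimpleGraph.isNClique_iff] at hS
    have := h.1 S hS.1
    omega
  · intro S hS
    rw [SimpleGraph.isNClique_iff] at hS
    have := h.2 S hS.1
    omega

/-- the lower bound from lexicographic powers -/
theorem lower' (t k : ℕ) (ht : 8 ≤ t) (hk : t ≤ k) :
    ∃ (n : ℕ) (G : SimpleGraph (Fin n)), 1 ≤ n ∧ NoMono G k ∧ Cost G t ∧
      1 / 50 * (t * Real.log k / Real.log t) ≤ Real.log n := by
  set s := t / 4 with hs
  have hs2 : 2 ≤ s := by omega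
  have hs4 : 4 * s ≤ t := by omega
  have hs8 : t ≤ 8 * s := by omega
  set w := 2 * s - 1 with hw
  have hw3 : 3 ≤ w := by omega
  have hwt : w ≤ t := by omega
  set j := Nat.log w (k - 1) with hj
  have hk1 : k - 1 ≠ 0 := by omega
  have hle : w ^ j ≤ k - 1 := Nat.pow_log_le_self w hk1
  have hlt : k - 1 < w ^ (j + 1) := Nat.lt_pow_succ_log_self (by omega) (k - 1)
  have hj1 : 1 ≤ j := by
    rw [hj]
    exact Nat.log_pos (by omega) (by omega)
  obtain ⟨G, hB, P, hP1, hP2⟩ := lower_powers s hs2 j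
  refine ⟨2 ^ (s * j), G, Nat.one_le_two_pow, noMono_of_bdd hB (by rw [← hw]; omega), ⟨P, by omega, hP2⟩, ?_⟩
  have ht0 : (0 : ℝ) < t := by
    have : 0 < t := by omega
    exact_mod_cast this
  have hlt0 : 0 < Real.log t := Real.log_pos (by
    have : 1 < t := by omega
    exact_mod_cast this)
  have hj0 : (0 : ℝ) < j := by exact_mod_cast hj1
  have hj1' : (1 : ℝ) ≤ j := by exact_mod_cast hj1
  have hl2 : 0.69 < Real.log 2 := lt_trans (by norm_num) Real.log_two_gt_d9
  have hk0 : (0 : ℝ) < k := by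
    have : 0 < k := by omega
    exact_mod_cast this
  -- `log k ≤ 4 j log t`
  have h1 : Real.log k ≤ 4 * j * Real.log t := by
    have e1 : k ≤ (k - 1) ^ 2 := by
      obtain ⟨a, rfl⟩ : ∃ a, k = a + 3 := ⟨k - 3, by omega⟩
      have : a + 3 - 1 = a + 2 := by omega
      rw [this]; nlinarith
    have e2 : (k - 1) ^ 2 ≤ (t ^ (j + 1)) ^ 2 := by
      apply Nat.pow_le_pow_left
      exact hlt.le.trans (Nat.pow_le_pow_left hwt _)
    have e3 : (k : ℝ) ≤ ((t : ℝ) ^ (j + 1)) ^ 2 := by exact_mod_cast e1.trans e2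
    have e4 := Real.log_le_log hk0 e3
    rw [Real.log_pow, Real.log_pow] at e4
    push_cast at e4
    nlinarith
  have h2 : Real.log ((2 ^ (s * j) : ℕ) : ℝ) = s * j * Real.log 2 := by
    push_cast
    rw [Real.log_pow]
    push_cast
    ring
  rw [h2]
  have hs0 : (t : ℝ) ≤ 8 * s := by exact_mod_cast hs8
  have h3 : t * Real.log k / Real.log t ≤ t * (4 * j) := by
    rw [div_le_iff₀ hlt0]
    nlinarith
  have hs1 : (0 : ℝ) < s := by
    have : 0 < s := by omega
    exact_mod_cast this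
  calc 1 / 50 * (t * Real.log k / Real.log t) ≤ 1 / 50 * (t * (4 * j)) := by linarith
    _ ≤ 1 / 50 * ((8 * s) * (4 * j)) := by
        have : (t : ℝ) * (4 * j) ≤ (8 * s) * (4 * j) := mul_le_mul_of_nonneg_right hs0 (by positivity)
        linarith
    _ = (s * j) * 0.64 := by ring
    _ ≤ (s * j) * Real.log 2 := mul_le_mul_of_nonneg_left (by linarith) (by positivity)
    _ = s * j * Real.log 2 := by ring

/-- the first player announces the binary digits of his vertex -/
noncomputable def tell (G : SimpleGraph (Fin n)) : ℕ → ℕ → Protocol (Fin n)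
  | 0, a => by
    classical
    exact .bob (fun y => decide (∃ h : a < n, G.Adj ⟨a, h⟩ y)) (.stop true) (.stop false)
  | m + 1, a => .alice (fun x => decide (x.val / 2 ^ m = 2 * a + 1)) (tell G m (2 * a + 1))
      (tell G m (2 * a))

theorem tell_plain (G : SimpleGraph (Fin n)) : ∀ m a : ℕ, (tell G m a).Plain := by
  intro m
  induction m with
  | zero => intro a; exact ⟨trivial, trivial⟩
  | succ m ih => intro a; exact ⟨ih _, ih _⟩

theorem tell_cost (G : SimpleGraph (Fin n)) : ∀ m a : ℕ, (tell G m a).cost = m + 1 := by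
  intro m
  induction m with
  | zero => intro a; rfl
  | succ m ih => intro a; simp only [tell, Protocol.cost, ih, max_self]

theorem tell_run (G : SimpleGraph (Fin n)) : ∀ (m a : ℕ) (x y : Fin n), x.val / 2 ^ m = a →
    ((tell G m a).run x y = true ↔ G.Adj x y) := by
  intro m
  induction m with
  | zero =>
    intro a x y h
    rw [pow_zero, Nat.div_one] at h
    subst h
    simp only [tell, Protocol.run]
    by_cases hadj : G.Adj x y
    · simp [hadj]
    · simp [hadj]
  | succ m ih =>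
    intro a x y h
    simp only [tell, Protocol.run, decide_eq_true_iff]
    have h1 : x.val / 2 ^ m / 2 = a := by
      rw [Nat.div_div_eq_div_mul, ← pow_succ]; exact h
    by_cases h2 : x.val / 2 ^ m = 2 * a + 1
    · rw [if_pos h2]; exact ih _ x y h2
    · rw [if_neg h2]; exact ih _ x y (by omega)

theorem plain_all (t : ℕ) (hn : n ≤ 2 ^ t) (G : SimpleGraph (Fin n)) : PlainCost G (t + 1) :=
  ⟨tell G t 0, tell_plain G t 0, (tell_cost G t 0).le, fun x y _ =>
    tell_run G t 0 x y (Nat.div_eq_of_lt (x.isLt.trans_le hn))⟩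

/-- a protocol without comparisons partitions the pairs into few monochromatic rectangles -/
theorem plain_cover {V : Type} (P : Protocol V) : ∀ t : ℕ, P.Plain → P.cost ≤ t →
    ∃ (ι : Type) (_ : Fintype ι) (R S : ι → Set V) (c : ι → Bool), Fintype.card ι ≤ 2 ^ t ∧
      (∀ x y, ∃ i, x ∈ R i ∧ y ∈ S i) ∧ ∀ i x y, x ∈ R i → y ∈ S i → P.run x y = c i := by
  induction P with
  | stop b =>
    intro t _ _
    exact ⟨Unit, inferInstance, fun _ => Set.univ, fun _ => Set.univ, fun _ => b,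
      by simpa using Nat.one_le_two_pow, fun x y => ⟨(), trivial, trivial⟩, fun _ _ _ _ _ => rfl⟩
  | alice f p q ihp ihq =>
    intro t hP ht
    simp only [Protocol.cost] at ht
    obtain ⟨s, rfl⟩ : ∃ s, t = s + 1 := ⟨t - 1, by omega⟩
    obtain ⟨ι, i1, R, S, c, h1, h2, h3⟩ := ihp s hP.1 (by omega)
    obtain ⟨κ, i2, R', S', c', h1', h2', h3'⟩ := ihq s hP.2 (by omega)
    refine ⟨ι ⊕ κ, inferInstance, Sum.elim (fun i => {x | x ∈ R i ∧ f x = true})
      (fun i => {x | x ∈ R' i ∧ ¬ f x = true}), Sum.elim S S', Sum.elim c c', ?_, ?_, ?_⟩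
    · rw [Fintype.card_sum, pow_succ]; omega
    · intro x y
      by_cases hf : f x = true
      · obtain ⟨i, h4, h5⟩ := h2 x y
        exact ⟨Sum.inl i, ⟨h4, hf⟩, h5⟩
      · obtain ⟨i, h4, h5⟩ := h2' x y
        exact ⟨Sum.inr i, ⟨h4, hf⟩, h5⟩
    · rintro (i | i) x y h4 h5
      · simp only [Protocol.run]
        rw [if_pos h4.2]
        exact h3 i x y h4.1 h5
      · simp only [Protocol.run]
        rw [if_neg h4.2]
        exact h3' i x y h4.1 h5
  | bob f p q ihp ihq =>
    intro t hP ht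
    simp only [Protocol.cost] at ht
    obtain ⟨s, rfl⟩ : ∃ s, t = s + 1 := ⟨t - 1, by omega⟩
    obtain ⟨ι, i1, R, S, c, h1, h2, h3⟩ := ihp s hP.1 (by omega)
    obtain ⟨κ, i2, R', S', c', h1', h2', h3'⟩ := ihq s hP.2 (by omega)
    refine ⟨ι ⊕ κ, inferInstance, Sum.elim R R', Sum.elim (fun i => {x | x ∈ S i ∧ f x = true})
      (fun i => {x | x ∈ S' i ∧ ¬ f x = true}), Sum.elim c c', ?_, ?_, ?_⟩
    · rw [Fintype.card_sum, pow_succ]; omega
    · intro x y
      by_cases hf : f y = true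
      · obtain ⟨i, h4, h5⟩ := h2 x y
        exact ⟨Sum.inl i, h4, ⟨h5, hf⟩⟩
      · obtain ⟨i, h4, h5⟩ := h2' x y
        exact ⟨Sum.inr i, h4, ⟨h5, hf⟩⟩
    · rintro (i | i) x y h4 h5
      · simp only [Protocol.run]
        rw [if_pos h5.2]
        exact h3 i x y h4 h5.1
      · simp only [Protocol.run]
        rw [if_neg h5.2]
        exact h3' i x y h4 h5.1
  | compare f g p q ihp ihq =>
    intro t hP _
    exact absurd hP id

theorem PlainCost.cover {t : ℕ} (h : PlainCost G t) : Cover G t := by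
  obtain ⟨P, h0, h1, h2⟩ := h
  obtain ⟨ι, i1, R, S, c, h3, h4, h5⟩ := plain_cover P t h0 h1
  have e := (Fintype.equivFin ι).symm
  refine ⟨Fintype.card ι, h3, fun i => R (e i), fun i => S (e i), fun i => c (e i), ?_, ?_⟩
  · intro x y _
    obtain ⟨i, h6, h7⟩ := h4 x y
    exact ⟨e.symm i, by simpa using h6, by simpa using h7⟩
  · intro i x y hxy hx hy
    have h6 := h5 (e i) x y hx hy
    change c (e i) = true ↔ G.Adj x y
    rw [← h6]
    exact h2 x y hxy

theorem PlainCost.toCost {t : ℕ} (h : PlainCost G t) : Cost G t := by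
  obtain ⟨P, _, h1, h2⟩ := h
  exact ⟨P, h1, h2⟩

theorem noMono_mono {k l : ℕ} (h : NoMono G k) (hkl : k ≤ l) : NoMono G l :=
  ⟨h.1.mono hkl, h.2.mono hkl⟩

theorem lower_plain (t k : ℕ) (hk : 3 ≤ k) (hkt : 2 * t ≤ k) :
    ∃ G : SimpleGraph (Fin (2 ^ t)), NoMono G k ∧ PlainCost G (t + 1) := by
  rcases Nat.lt_or_ge t 2 with ht | ht
  · refine ⟨⊥, ?_, plain_all t le_rfl _⟩
    have hb : Bdd (⊥ : SimpleGraph (Fin (2 ^ t))) (2 ^ t) := by
      constructor <;>
      · intro A _
        have := card_le_univ A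
        rwa [Fintype.card_fin] at this
    refine noMono_of_bdd hb ?_
    interval_cases t <;> omega
  · obtain ⟨G, hG⟩ := exists_base t ht
    exact ⟨G, noMono_of_bdd hG (by omega), plain_all t le_rfl _⟩

/-- the growth rate for the complexity `ε k`, upper bound -/
theorem rate_upper' (ε : ℝ) (hε : 0 < ε) (hε1 : ε ≤ 1) : ∃ K : ℕ, ∀ k : ℕ, K ≤ k →
    ∀ (n : ℕ) (G : SimpleGraph (Fin n)), 1 ≤ n → NoMono G k →
      (Cost G ⌊ε * k⌋₊ ∨ Cover G ⌊ε * k⌋₊) → Real.log n / k ≤ 28 * (ε * Real.log (2 / ε)) := by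
  obtain ⟨K, hK⟩ := exists_nat_ge (2 / ε)
  refine ⟨max K 1, fun k hk n G hn h1 h2 => ?_⟩
  have hkK : K ≤ k := le_trans (le_max_left _ _) hk
  have hk1 : 1 ≤ k := le_trans (le_max_right _ _) hk
  have hk0 : (0 : ℝ) < k := by exact_mod_cast hk1
  have hkε : 2 / ε ≤ k := hK.trans (by exact_mod_cast hkK)
  have hεk : 2 ≤ ε * k := by
    rw [div_le_iff₀ hε] at hkε
    linarith
  set d := ⌊ε * (k : ℝ)⌋₊ with hd
  have hdle : (d : ℝ) ≤ ε * k := Nat.floor_le (by positivity)
  have hdge : ε * k < d + 1 := Nat.lt_floor_add_one _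
  have hd1 : (1 : ℝ) < d := by linarith
  have hd1' : 1 ≤ d := by
    have : (0 : ℝ) < d := by linarith
    have : 0 < d := by exact_mod_cast this
    omega
  have hd0 : (0 : ℝ) < d := by linarith
  have hmain := upper' hn hk1 hd1' h1 h2
  have hratio : 2 + (k : ℝ) / d ≤ (2 / ε) ^ 2 := by
    have h4 : (k : ℝ) / d ≤ 2 / ε := by
      rw [div_le_div_iff₀ hd0 hε]
      nlinarith
    have h5 : 2 ≤ 2 / ε := by
      rw [le_div_iff₀ hε]; nlinarith
    nlinarith
  have hlog : Real.log (2 + (k : ℝ) / d) ≤ 2 * Real.log (2 / ε) := by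
    calc Real.log (2 + (k : ℝ) / d) ≤ Real.log ((2 / ε) ^ 2) :=
          Real.log_le_log (by positivity) hratio
      _ = 2 * Real.log (2 / ε) := by rw [Real.log_pow]; norm_num
  have h6 : (d : ℝ) * Real.log (2 + (k : ℝ) / d) ≤ (ε * k) * (2 * Real.log (2 / ε)) := by
    apply mul_le_mul hdle hlog _ (by positivity)
    apply Real.log_nonneg
    have : 0 ≤ (k : ℝ) / d := by positivity
    linarith
  rw [div_le_iff₀ hk0]
  calc Real.log n ≤ 14 * (d * Real.log (2 + (k : ℝ) / d)) := hmain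
    _ ≤ 14 * ((ε * k) * (2 * Real.log (2 / ε))) := by linarith
    _ = 28 * (ε * Real.log (2 / ε)) * k := by ring

/-- the growth rate for the complexity `ε k`, lower bound -/
theorem rate_lower' (ε : ℝ) (hε : 0 < ε) (hε1 : ε ≤ 1 / 2) : ∃ K : ℕ, ∀ k : ℕ, K ≤ k →
    ∃ (n : ℕ) (G : SimpleGraph (Fin n)), NoMono G k ∧ PlainCost G ⌊ε * k⌋₊ ∧
      ε / 2 ≤ Real.log n / k := by
  obtain ⟨K, hK⟩ := exists_nat_ge (8 / ε)
  refine ⟨max K 3, fun k hk => ?_⟩
  have hkK : K ≤ k := le_trans (le_max_left _ _) hk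
  have hk3 : 3 ≤ k := le_trans (le_max_right _ _) hk
  have hk0 : (0 : ℝ) < k := by
    have : 0 < k := by omega
    exact_mod_cast this
  have hkε : 8 / ε ≤ k := hK.trans (by exact_mod_cast hkK)
  have hεk : 8 ≤ ε * k := by
    rw [div_le_iff₀ hε] at hkε
    linarith
  set d := ⌊ε * (k : ℝ)⌋₊ with hd
  have hdle : (d : ℝ) ≤ ε * k := Nat.floor_le (by positivity)
  have hdge : ε * k < d + 1 := Nat.lt_floor_add_one _
  have hd1 : 1 ≤ d := by
    have : (0 : ℝ) < d := by linarith
    have : 0 < d := by exact_mod_cast this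
    omega
  obtain ⟨t, ht⟩ : ∃ t, d = t + 1 := ⟨d - 1, by omega⟩
  have h2t : 2 * t ≤ k := by
    have h1 : (2 * t : ℝ) ≤ k := by
      have h2 : (d : ℝ) = t + 1 := by exact_mod_cast ht
      nlinarith
    exact_mod_cast h1
  obtain ⟨G, h1, h2⟩ := lower_plain t k hk3 h2t
  refine ⟨2 ^ t, G, h1, by rw [ht]; exact h2, ?_⟩
  have hl2 : 0.69 < Real.log 2 := lt_trans (by norm_num) Real.log_two_gt_d9
  have h3 : Real.log ((2 ^ t : ℕ) : ℝ) = t * Real.log 2 := by
    push_cast
    rw [Real.log_pow]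
  rw [h3, le_div_iff₀ hk0]
  have h4 : (d : ℝ) = t + 1 := by exact_mod_cast ht
  have h5 : ε * k - 2 < t := by linarith
  have h6 : (0 : ℝ) ≤ t := by positivity
  nlinarith

/-- colourings with many vertices have large complexity -/
theorem large_cost (θ : ℝ) (hθ : 0 < θ) (hθ1 : θ ≤ 1) : ∃ K : ℕ, ∀ k : ℕ, K ≤ k →
    ∀ (n : ℕ) (G : SimpleGraph (Fin n)), NoMono G k → Real.exp (θ * k) ≤ n →
      ∀ t : ℕ, (Cost G t ∨ Cover G t) → 1 / 200 * (θ / Real.log (2 / θ)) * k ≤ t := by
  set L := Real.log (2 / θ) with hL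
  have hl2 : 0.69 < Real.log 2 := lt_trans (by norm_num) Real.log_two_gt_d9
  have hLge : 0.69 < L := by
    apply hl2.trans_le
    apply Real.log_le_log (by norm_num)
    rw [le_div_iff₀ hθ]; nlinarith
  have hL0 : 0 < L := by linarith
  set ε := 1 / 200 * (θ / L) with hε
  have hε0 : 0 < ε := by positivity
  obtain ⟨K, hK⟩ := exists_nat_ge (2 / ε)
  refine ⟨max K 1, fun k hk n G h1 hn t ht => ?_⟩
  have hkK : K ≤ k := le_trans (le_max_left _ _) hk
  have hk1 : 1 ≤ k := le_trans (le_max_right _ _) hk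
  have hk0 : (0 : ℝ) < k := by exact_mod_cast hk1
  have hkε : 2 / ε ≤ k := hK.trans (by exact_mod_cast hkK)
  have hεk : 2 ≤ ε * k := by
    rw [div_le_iff₀ hε0] at hkε
    linarith
  have hn0 : (0 : ℝ) < n := lt_of_lt_of_le (Real.exp_pos _) hn
  have hn1 : 1 ≤ n := by
    have : 0 < n := by exact_mod_cast hn0
    omega
  by_contra hcon
  push Not at hcon
  set d := ⌊ε * (k : ℝ)⌋₊ with hd
  have htd : t ≤ d := Nat.le_floor hcon.le
  have hdle : (d : ℝ) ≤ ε * k := Nat.floor_le (by positivity)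
  have hdge : ε * k < d + 1 := Nat.lt_floor_add_one _
  have hd1 : (1 : ℝ) < d := by linarith
  have hd1' : 1 ≤ d := by
    have : (0 : ℝ) < d := by linarith
    have : 0 < d := by exact_mod_cast this
    omega
  have hd0 : (0 : ℝ) < d := by linarith
  have hc : Cost G d ∨ Cover G d := by
    rcases ht with h | h
    · exact Or.inl (h.mono htd)
    · exact Or.inr (h.mono htd)
  have hmain := upper' hn1 hk1 hd1' h1 hc
  have hlow : θ * k ≤ Real.log n := by
    rw [← Real.log_exp (θ * k)]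
    exact Real.log_le_log (Real.exp_pos _) hn
  -- the logarithm
  have hexpL : Real.exp L = 2 / θ := Real.exp_log (by positivity)
  have hLexp : L ≤ Real.exp L := by
    have := Real.add_one_le_exp L
    linarith
  have hratio : 2 + (k : ℝ) / d ≤ 400 * Real.exp (2 * L) := by
    have h4 : (k : ℝ) / d ≤ 2 / ε := by
      rw [div_le_div_iff₀ hd0 hε0]
      nlinarith
    have h5 : 2 / ε = 200 * (L * (2 / θ)) := by
      rw [hε]; field_simp; try ring
    have h6 : L * (2 / θ) ≤ Real.exp (2 * L) := by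
      rw [← hexpL]
      calc L * Real.exp L ≤ Real.exp L * Real.exp L :=
            mul_le_mul_of_nonneg_right hLexp (Real.exp_pos _).le
        _ = Real.exp (2 * L) := by rw [← Real.exp_add]; ring_nf
    have h7 : 1 ≤ Real.exp (2 * L) := Real.one_le_exp (by positivity)
    linarith
  have hlog400 : Real.log 400 ≤ 6 := by
    rw [Real.log_le_iff_le_exp (by norm_num)]
    have h8 := Real.exp_one_gt_d9
    have h9 : Real.exp 6 = (Real.exp 1) ^ 6 := by rw [← Real.exp_nat_mul]; norm_num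
    rw [h9]
    calc (400 : ℝ) ≤ 2.718 ^ 6 := by norm_num
      _ ≤ (Real.exp 1) ^ 6 := pow_le_pow_left₀ (by norm_num) (by linarith) 6
  have hlog : Real.log (2 + (k : ℝ) / d) ≤ 6 + 2 * L := by
    calc Real.log (2 + (k : ℝ) / d) ≤ Real.log (400 * Real.exp (2 * L)) :=
          Real.log_le_log (by positivity) hratio
      _ = Real.log 400 + 2 * L := by
          rw [Real.log_mul (by norm_num) (by positivity), Real.log_exp]
      _ ≤ _ := by linarith
  have h10 : (d : ℝ) * Real.log (2 + (k : ℝ) / d) ≤ (ε * k) * (6 + 2 * L) := by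
    apply mul_le_mul hdle hlog _ (by positivity)
    apply Real.log_nonneg
    have : 0 ≤ (k : ℝ) / d := by positivity
    linarith
  have h11 : θ * k ≤ 14 * ((ε * k) * (6 + 2 * L)) := by linarith
  have h12 : 14 * ((ε * k) * (6 + 2 * L)) < θ * k := by
    have h13 : ε * L = θ / 200 := by rw [hε]; field_simp
    have h14 : ε * (6 + 2 * L) * L = θ / 200 * (6 + 2 * L) := by
      calc ε * (6 + 2 * L) * L = (ε * L) * (6 + 2 * L) := by ring
        _ = _ := by rw [h13]
    have h15 : 14 * (ε * (6 + 2 * L)) * L < θ * L := by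
      have : 14 * (ε * (6 + 2 * L)) * L = 14 * (θ / 200 * (6 + 2 * L)) := by
        rw [← h14]; ring
      rw [this]
      nlinarith
    have h16 : 14 * (ε * (6 + 2 * L)) < θ := lt_of_mul_lt_mul_right h15 hL0.le
    calc 14 * ((ε * k) * (6 + 2 * L)) = (14 * (ε * (6 + 2 * L))) * k := by ring
      _ < θ * k := mul_lt_mul_of_pos_right h16 hk0
  linarith

end Pool.Agent.Helper141.CC
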