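import Pool.Agent.Helper141.CC.Proto
import Pool.Agent.H818R2.Ram.Erdos

set_option autoImplicit false

/-!
# Ramsey colourings of small communication complexity: iterated lexicographic products
-/

namespace Pool.Agent.Helper141.CC

open Finset

/-- all cliques and all independent sets have at most `w` elements -/
def Bdd {V : Type} (G : SimpleGraph V) (w : ℕ) : Prop :=
  (∀ A : Finset V, G.IsClique (A : Set V) → A.card ≤ w) ∧
    ∀ A : Finset V, Gᶜ.IsClique (A : Set V) → A.card ≤ w

/-- the lexicographic product -/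
def lexG {S V : Type} (G0 : SimpleGraph S) (G : SimpleGraph V) : SimpleGraph (S × V) where
  Adj a b := G0.Adj a.1 b.1 ∨ (a.1 = b.1 ∧ G.Adj a.2 b.2)
  symm := ⟨by
    rintro a b (h | ⟨h1, h2⟩)
    · exact Or.inl h.symm
    · exact Or.inr ⟨h1.symm, h2.symm⟩⟩
  loopless := ⟨by
    rintro a (h | ⟨_, h⟩)
    · exact G0.loopless.irrefl _ h
    · exact G.loopless.irrefl _ h⟩

theorem lexG_adj {S V : Type} (G0 : SimpleGraph S) (G : SimpleGraph V) (a b : S × V) :
    (lexG G0 G).Adj a b ↔ G0.Adj a.1 b.1 ∨ (a.1 = b.1 ∧ G.Adj a.2 b.2) := Iff.rfl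

open Classical in
theorem bdd_lex {S V : Type} {G0 : SimpleGraph S} {G : SimpleGraph V} {w0 w : ℕ}
    (h0 : Bdd G0 w0) (h : Bdd G w) : Bdd (lexG G0 G) (w0 * w) := by
  constructor
  · intro A hA
    have h1 : A.card ≤ w * (A.image Prod.fst).card := by
      apply card_le_mul_card_image
      intro a ha
      have hinj : Set.InjOn Prod.snd (A.filter (fun z => z.1 = a) : Set (S × V)) := by
        intro x hx y hy hxy
        rw [coe_filter] at hx hy
        exact Prod.ext (hx.2.trans hy.2.symm) hxy
      rw [← card_image_of_injOn hinj]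
      apply h.1
      intro x hx y hy hxy
      rw [mem_coe, mem_image] at hx hy
      obtain ⟨p, hp, rfl⟩ := hx
      obtain ⟨q, hq, rfl⟩ := hy
      rw [mem_filter] at hp hq
      have hpq : p ≠ q := fun e => hxy (by rw [e])
      rcases hA hp.1 hq.1 hpq with h2 | ⟨_, h2⟩
      · rw [hp.2, hq.2] at h2
        exact absurd h2 (G0.loopless.irrefl _)
      · exact h2
    have h2 : (A.image Prod.fst).card ≤ w0 := by
      apply h0.1
      intro x hx y hy hxy
      rw [mem_coe, mem_image] at hx hy
      obtain ⟨p, hp, rfl⟩ := hx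
      obtain ⟨q, hq, rfl⟩ := hy
      have hpq : p ≠ q := fun e => hxy (by rw [e])
      rcases hA hp hq hpq with h2 | ⟨h2, _⟩
      · exact h2
      · exact absurd h2 hxy
    calc A.card ≤ w * (A.image Prod.fst).card := h1
      _ ≤ w * w0 := Nat.mul_le_mul_left _ h2
      _ = w0 * w := Nat.mul_comm _ _
  · intro A hA
    have h1 : A.card ≤ w * (A.image Prod.fst).card := by
      apply card_le_mul_card_image
      intro a ha
      have hinj : Set.InjOn Prod.snd (A.filter (fun z => z.1 = a) : Set (S × V)) := by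
        intro x hx y hy hxy
        rw [coe_filter] at hx hy
        exact Prod.ext (hx.2.trans hy.2.symm) hxy
      rw [← card_image_of_injOn hinj]
      apply h.2
      intro x hx y hy hxy
      rw [mem_coe, mem_image] at hx hy
      obtain ⟨p, hp, rfl⟩ := hx
      obtain ⟨q, hq, rfl⟩ := hy
      rw [mem_filter] at hp hq
      have hpq : p ≠ q := fun e => hxy (by rw [e])
      have h2 := hA hp.1 hq.1 hpq
      rw [SimpleGraph.compl_adj, lexG_adj] at h2
      rw [SimpleGraph.compl_adj]
      refine ⟨hxy, fun h3 => h2.2 (Or.inr ⟨by rw [hp.2, hq.2], h3⟩)⟩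
    have h2 : (A.image Prod.fst).card ≤ w0 := by
      apply h0.2
      intro x hx y hy hxy
      rw [mem_coe, mem_image] at hx hy
      obtain ⟨p, hp, rfl⟩ := hx
      obtain ⟨q, hq, rfl⟩ := hy
      have hpq : p ≠ q := fun e => hxy (by rw [e])
      have h2 := hA hp hq hpq
      rw [SimpleGraph.compl_adj, lexG_adj] at h2
      rw [SimpleGraph.compl_adj]
      exact ⟨hxy, fun h3 => h2.2 (Or.inl h3)⟩
    calc A.card ≤ w * (A.image Prod.fst).card := h1
      _ ≤ w * w0 := Nat.mul_le_mul_left _ h2
      _ = w0 * w := Nat.mul_comm _ _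

/-- The `j`-th lexicographic power: `D x y` are the first different letters of `x` and `y`, and
`F σ` is the number with the digits `σ`. -/
structure Power {S : Type} (G0 : SimpleGraph S) (M w N j : ℕ) where
  V : Type
  fin : Fintype V
  G : SimpleGraph V
  D : V → V → S × S
  F : (S → ℕ) → V → ℕ
  card : Fintype.card V = N ^ j
  bdd : Bdd G (w ^ j)
  diff : ∀ x y, x ≠ y → (D x y).1 ≠ (D x y).2
  adj : ∀ x y, x ≠ y → (G.Adj x y ↔ G0.Adj (D x y).1 (D x y).2)
  lt : ∀ σ : S → ℕ, (∀ u, σ u < M) → ∀ x, F σ x < M ^ j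
  le : ∀ σ : S → ℕ, Function.Injective σ → (∀ u, σ u < M) → ∀ x y, x ≠ y →
    (F σ x ≤ F σ y ↔ σ (D x y).1 ≤ σ (D x y).2)

open Classical in
theorem exists_power {S : Type} [Fintype S] (G0 : SimpleGraph S) (M w : ℕ) (h0 : Bdd G0 w) (s0 : S) :
    ∀ j : ℕ, Nonempty (Power G0 M w (Fintype.card S) j) := by
  intro j
  induction j with
  | zero =>
    refine ⟨⟨Unit, inferInstance, ⊥, fun _ _ => (s0, s0), fun _ _ => 0, by simp, ?_, ?_, ?_, ?_, ?_⟩⟩
    · constructor
      · intro A _
        have := card_le_univ A
        simpa using this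
      · intro A _
        have := card_le_univ A
        simpa using this
    · intro x y h; exact absurd (Subsingleton.elim x y) h
    · intro x y h; exact absurd (Subsingleton.elim x y) h
    · intro σ _ x; simp
    · intro σ _ _ x y h; exact absurd (Subsingleton.elim x y) h
  | succ j ih =>
    obtain ⟨P⟩ := ih
    let _ : Fintype P.V := P.fin
    refine ⟨⟨S × P.V, inferInstance, lexG G0 P.G,
      fun a b => if a.1 = b.1 then P.D a.2 b.2 else (a.1, b.1),
      fun σ a => σ a.1 * M ^ j + P.F σ a.2, ?_, ?_, ?_, ?_, ?_, ?_⟩⟩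
    · rw [Fintype.card_prod, P.card, pow_succ, Nat.mul_comm]
    · have := bdd_lex h0 P.bdd
      rwa [pow_succ, Nat.mul_comm]
    · rintro ⟨a, x⟩ ⟨b, y⟩ h
      by_cases hab : a = b
      · subst hab
        have hxy : x ≠ y := fun e => h (by rw [e])
        simpa using P.diff x y hxy
      · simpa [hab] using hab
    · rintro ⟨a, x⟩ ⟨b, y⟩ h
      rw [lexG_adj]
      by_cases hab : a = b
      · subst hab
        have hxy : x ≠ y := fun e => h (by rw [e])
        simpa using P.adj x y hxy
      · simp [hab]
    · intro σ hσ a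
      have h1 := P.lt σ hσ a.2
      have h2 := hσ a.1
      calc σ a.1 * M ^ j + P.F σ a.2 < σ a.1 * M ^ j + M ^ j := by omega
        _ = (σ a.1 + 1) * M ^ j := by ring
        _ ≤ M * M ^ j := Nat.mul_le_mul_right _ h2
        _ = M ^ (j + 1) := by ring
    · rintro σ hinj hσ ⟨a, x⟩ ⟨b, y⟩ h
      by_cases hab : a = b
      · subst hab
        have hxy : x ≠ y := fun e => h (by rw [e])
        have := P.le σ hinj hσ x y hxy
        simp only [if_true]
        rw [← this]
        omega
      · simp only [hab, if_false]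
        have h1 := P.lt σ hσ x
        have h2 := P.lt σ hσ y
        have hne : σ a ≠ σ b := fun e => hab (hinj e)
        constructor
        · intro h3
          by_contra h4
          push Not at h4
          have h5 : (σ b + 1) * M ^ j ≤ σ a * M ^ j := Nat.mul_le_mul_right _ h4
          have h6 : (σ b + 1) * M ^ j = σ b * M ^ j + M ^ j := by ring
          omega
        · intro h3
          have h4 : σ a < σ b := lt_of_le_of_ne h3 hne
          have h5 : (σ a + 1) * M ^ j ≤ σ b * M ^ j := Nat.mul_le_mul_right _ h4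
          have h6 : (σ a + 1) * M ^ j = σ a * M ^ j + M ^ j := by ring
          omega

/-- decision trees which compare two letters in linear orders of the letters -/
inductive OTree (S : Type) : Type
  | stop (b : Bool) : OTree S
  | query (σ : S → ℕ) (p q : OTree S) : OTree S

def OTree.ans {S : Type} : OTree S → S → S → Bool
  | .stop b, _, _ => b
  | .query σ p q, u, v => if σ u ≤ σ v then p.ans u v else q.ans u v

def OTree.depth {S : Type} : OTree S → ℕ
  | .stop _ => 0
  | .query _ p q => max p.depth q.depth + 1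

def OTree.Ok {S : Type} (M : ℕ) : OTree S → Prop
  | .stop _ => True
  | .query σ p q => Function.Injective σ ∧ (∀ u, σ u < M) ∧ p.Ok M ∧ q.Ok M

/-- the protocol on words given by a decision tree on letters -/
def OTree.conv {S V : Type} (F : (S → ℕ) → V → ℕ) : OTree S → Protocol V
  | .stop b => .stop b
  | .query σ p q => .compare (fun x => (F σ x : ℝ)) (fun y => (F σ y : ℝ)) (p.conv F) (q.conv F)

theorem OTree.conv_cost {S V : Type} (F : (S → ℕ) → V → ℕ) (T : OTree S) :
    (T.conv F).cost = T.depth := by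
  induction T with
  | stop b => rfl
  | query σ p q ihp ihq => simp only [OTree.conv, Protocol.cost, OTree.depth, ihp, ihq]

theorem OTree.conv_run {S : Type} {G0 : SimpleGraph S} {M w N j : ℕ} (P : Power G0 M w N j)
    (T : OTree S) (hT : T.Ok M) (x y : P.V) (hxy : x ≠ y) :
    (T.conv P.F).run x y = T.ans (P.D x y).1 (P.D x y).2 := by
  induction T with
  | stop b => rfl
  | query σ p q ihp ihq =>
    obtain ⟨h1, h2, h3, h4⟩ := hT
    have h5 := P.le σ h1 h2 x y hxy
    simp only [OTree.conv, Protocol.run, OTree.ans]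
    by_cases h : P.F σ x ≤ P.F σ y
    · rw [if_pos (by exact_mod_cast h), if_pos (h5.1 h), ihp h3]
    · rw [if_neg (by exact_mod_cast h), if_neg (fun h' => h (h5.2 h')), ihq h4]

end Pool.Agent.Helper141.CC
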