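import Pool.Agent.Helper141.CC.Proto
import Pool.Agent.H818R2.Ram.Basic

set_option autoImplicit false

/-!
# Ramsey colourings of small communication complexity: the upper bound
-/

namespace Pool.Agent.Helper141.CC

open Finset

variable {V : Type}

open Classical in
/-- disjoint large monochromatic pairs inside a set -/
theorem split_set {G : SimpleGraph V} {t : ℕ} (hG : Side G t) (U : Finset V) (s : ℕ) (hs : 1 ≤ s)
    (hU : 2 ^ (t + 1) * s ≤ U.card) :
    ∃ X Y : Finset V, X ⊆ U ∧ Y ⊆ U ∧ Disjoint X Y ∧ s ≤ X.card ∧ s ≤ Y.card ∧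
      ((∀ x ∈ X, ∀ y ∈ Y, G.Adj x y) ∨ ∀ x ∈ X, ∀ y ∈ Y, ¬ G.Adj x y) := by
  have h2 : 2 ^ (t + 1) * s = 2 ^ t * s + 2 ^ t * s := by ring
  have hpos : 0 < 2 ^ t * s := by positivity
  obtain ⟨A, hAU, hA⟩ := exists_subset_card_eq (s := U) (n := 2 ^ t * s) (by omega)
  have hB : (U \ A).card = U.card - 2 ^ t * s := by rw [card_sdiff_of_subset hAU, hA]
  have hdisj : Disjoint A (U \ A) := disjoint_sdiff
  obtain ⟨X, Y, hX, hY, h3, h4, h5⟩ := hG A (U \ A) hdisj (card_pos.1 (by omega))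
    (card_pos.1 (by omega))
  refine ⟨X, Y, hX.trans hAU, hY.trans sdiff_subset, disjoint_of_subset_left hX
    (disjoint_of_subset_right hY hdisj), ?_, ?_, h5⟩
  · rw [hA] at h3
    exact Nat.le_of_mul_le_mul_left h3 (by positivity)
  · have : 2 ^ t * s ≤ 2 ^ t * Y.card := by omega
    exact Nat.le_of_mul_le_mul_left this (by positivity)

/-- `U` contains a clique and an independent set such that the product of their sizes is at
least `P`. -/
def Prod (G : SimpleGraph V) (U : Finset V) (P : ℕ) : Prop :=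
  ∃ A B : Finset V, A ⊆ U ∧ B ⊆ U ∧ G.IsClique (A : Set V) ∧ Gᶜ.IsClique (B : Set V) ∧
    P ≤ A.card * B.card

open Classical in
theorem isClique_union {G : SimpleGraph V} {X Y A B : Finset V} (hdisj : Disjoint X Y)
    (hAX : A ⊆ X) (hBY : B ⊆ Y) (hA : G.IsClique (A : Set V)) (hB : G.IsClique (B : Set V))
    (h : ∀ x ∈ X, ∀ y ∈ Y, G.Adj x y) : G.IsClique ((A ∪ B : Finset V) : Set V) := by
  intro x hx y hy hxy
  rw [mem_coe, mem_union] at hx hy
  rcases hx with hx | hx <;> rcases hy with hy | hy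
  · exact hA hx hy hxy
  · exact h x (hAX hx) y (hBY hy)
  · exact (h y (hAX hy) x (hBY hx)).symm
  · exact hB hx hy hxy

open Classical in
/-- the product of the sizes at least doubles in every step -/
theorem double {G : SimpleGraph V} {X Y : Finset V} {P : ℕ} (hdisj : Disjoint X Y)
    (hX : Prod G X P) (hY : Prod G Y P)
    (h : (∀ x ∈ X, ∀ y ∈ Y, G.Adj x y) ∨ ∀ x ∈ X, ∀ y ∈ Y, ¬ G.Adj x y) :
    Prod G (X ∪ Y) (2 * P) := by
  obtain ⟨A1, B1, hA1, hB1, cA1, cB1, h1⟩ := hX
  obtain ⟨A2, B2, hA2, hB2, cA2, cB2, h2⟩ := hY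
  rcases h with h | h
  · have hc : (A1 ∪ A2).card = A1.card + A2.card :=
      card_union_of_disjoint (disjoint_of_subset_left hA1 (disjoint_of_subset_right hA2 hdisj))
    have hcl := isClique_union hdisj hA1 hA2 cA1 cA2 h
    rcases le_total B1.card B2.card with hle | hle
    · refine ⟨A1 ∪ A2, B2, union_subset_union hA1 hA2, hB2.trans subset_union_right, hcl, cB2, ?_⟩
      rw [hc]; nlinarith
    · refine ⟨A1 ∪ A2, B1, union_subset_union hA1 hA2, hB1.trans subset_union_left, hcl, cB1, ?_⟩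
      rw [hc]; nlinarith
  · have h' : ∀ x ∈ X, ∀ y ∈ Y, Gᶜ.Adj x y := by
      intro x hx y hy
      rw [SimpleGraph.compl_adj]
      refine ⟨?_, h x hx y hy⟩
      rintro rfl
      exact disjoint_left.1 hdisj hx hy
    have hc : (B1 ∪ B2).card = B1.card + B2.card :=
      card_union_of_disjoint (disjoint_of_subset_left hB1 (disjoint_of_subset_right hB2 hdisj))
    have hcl := isClique_union hdisj hB1 hB2 cB1 cB2 h'
    rcases le_total A1.card A2.card with hle | hle
    · refine ⟨A2, B1 ∪ B2, hA2.trans subset_union_right, union_subset_union hB1 hB2, cA2, hcl, ?_⟩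
      rw [hc]; nlinarith
    · refine ⟨A1, B1 ∪ B2, hA1.trans subset_union_left, union_subset_union hB1 hB2, cA1, hcl, ?_⟩
      rw [hc]; nlinarith

open Classical in
theorem Prod.mono_set {G : SimpleGraph V} {X Y : Finset V} {P : ℕ} (h : Prod G X P) (hXY : X ⊆ Y) :
    Prod G Y P := by
  obtain ⟨A, B, h1, h2, h3⟩ := h
  exact ⟨A, B, h1.trans hXY, h2.trans hXY, h3⟩

open Classical in
/-- iteration -/
theorem iterate_prod {G : SimpleGraph V} {t : ℕ} (hG : Side G t) (M P : ℕ) (hM : 1 ≤ M)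
    (hbase : ∀ U : Finset V, M ≤ U.card → Prod G U P) :
    ∀ j : ℕ, ∀ U : Finset V, (2 ^ (t + 1)) ^ j * M ≤ U.card → Prod G U (2 ^ j * P) := by
  intro j
  induction j with
  | zero =>
    intro U hU
    have := hbase U (by simpa using hU)
    simpa using this
  | succ j ih =>
    intro U hU
    have h1 : 2 ^ (t + 1) * ((2 ^ (t + 1)) ^ j * M) ≤ U.card := by
      calc 2 ^ (t + 1) * ((2 ^ (t + 1)) ^ j * M) = (2 ^ (t + 1)) ^ (j + 1) * M := by ring
        _ ≤ _ := hU
    obtain ⟨X, Y, hX, hY, hd, hx, hy, h⟩ := split_set hG U _ (Nat.one_le_iff_ne_zero.2 (by positivity)) h1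
    have := double hd (ih X hx) (ih Y hy) h
    have h3 : 2 ^ (j + 1) * P = 2 * (2 ^ j * P) := by ring
    rw [h3]
    exact this.mono_set (union_subset hX hY)

/-- `C(a + b, a) ≤ exp (3 p)` if `a b ≤ p ^ 2` -/
theorem choose_le_exp_aux (a b p : ℕ) (hab : a ≤ b) (h : a * b ≤ p ^ 2) :
    (((a + b).choose a : ℕ) : ℝ) ≤ Real.exp (3 * p) := by
  rcases Nat.eq_zero_or_pos a with rfl | ha
  · simp only [Nat.choose_zero_right, Nat.cast_one]
    exact Real.one_le_exp (by positivity)
  have ha0 : (0 : ℝ) < a := by exact_mod_cast ha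
  have hf0 : (0 : ℝ) < (a.factorial : ℝ) := by exact_mod_cast a.factorial_pos
  have h1 : (((a + b).choose a : ℕ) : ℝ) ≤ ((a + b : ℕ) : ℝ) ^ a / a.factorial :=
    Nat.choose_le_pow_div a (a + b)
  have h2 : ((a + b : ℕ) : ℝ) ≤ 2 * b := by
    push_cast
    have : (a : ℝ) ≤ b := by exact_mod_cast hab
    linarith
  have h3 : ((a + b : ℕ) : ℝ) ^ a ≤ (2 * (b : ℝ)) ^ a := pow_le_pow_left₀ (by positivity) h2 a
  have h4 : (a.factorial : ℝ) ≤ (a : ℝ) ^ a := by exact_mod_cast Nat.factorial_le_pow a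
  have h5 : (a : ℝ) * b ≤ (p : ℝ) ^ 2 := by exact_mod_cast h
  have h6 : (2 * (b : ℝ)) ^ a * a.factorial ≤ ((3 / 2 * (p : ℝ)) ^ a) ^ 2 := by
    calc (2 * (b : ℝ)) ^ a * a.factorial ≤ (2 * (b : ℝ)) ^ a * (a : ℝ) ^ a :=
          mul_le_mul_of_nonneg_left h4 (by positivity)
      _ = (2 * (a * b)) ^ a := by rw [← mul_pow]; ring
      _ ≤ ((3 / 2 * (p : ℝ)) ^ 2) ^ a := by
          apply pow_le_pow_left₀ (by positivity)
          nlinarith
      _ = ((3 / 2 * (p : ℝ)) ^ a) ^ 2 := pow_right_comm _ _ _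
  have h7 : (3 / 2 * (p : ℝ)) ^ a / a.factorial ≤ Real.exp (3 / 2 * p) :=
    Real.pow_div_factorial_le_exp _ (by positivity) a
  have h8 : (((a + b).choose a : ℕ) : ℝ) ≤ ((3 / 2 * (p : ℝ)) ^ a / a.factorial) ^ 2 := by
    refine h1.trans ?_
    rw [div_pow, div_le_div_iff₀ hf0 (by positivity)]
    calc ((a + b : ℕ) : ℝ) ^ a * (a.factorial : ℝ) ^ 2
        ≤ (2 * (b : ℝ)) ^ a * (a.factorial : ℝ) ^ 2 := mul_le_mul_of_nonneg_right h3 (by positivity)
      _ = ((2 * (b : ℝ)) ^ a * a.factorial) * a.factorial := by ring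
      _ ≤ ((3 / 2 * (p : ℝ)) ^ a) ^ 2 * a.factorial := mul_le_mul_of_nonneg_right h6 hf0.le
  calc (((a + b).choose a : ℕ) : ℝ) ≤ ((3 / 2 * (p : ℝ)) ^ a / a.factorial) ^ 2 := h8
    _ ≤ (Real.exp (3 / 2 * p)) ^ 2 := pow_le_pow_left₀ (by positivity) h7 2
    _ = Real.exp (3 * p) := by rw [← Real.exp_nat_mul]; congr 1; push_cast; ring

theorem choose_le_exp (a b p : ℕ) (h : a * b ≤ p ^ 2) :
    (((a + b).choose a : ℕ) : ℝ) ≤ Real.exp (3 * p) := by
  rcases le_total a b with hab | hab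
  · exact choose_le_exp_aux a b p hab h
  · have h1 := choose_le_exp_aux b a p hab (by rwa [mul_comm])
    have h2 : (a + b).choose a = (b + a).choose b := by
      rw [add_comm b a]
      exact Nat.choose_symm_add
    rw [h2]; exact h1

open Classical in
/-- large sets contain a clique and an independent set with large product of the sizes -/
theorem base_prod (G : SimpleGraph V) (p : ℕ) (U : Finset V)
    (hU : Real.exp (3 * p) ≤ (U.card : ℝ)) : Prod G U (p ^ 2) := by
  have hex : ∀ H : SimpleGraph V, ∃ A : Finset V, A ⊆ U ∧ H.IsClique (A : Set V) ∧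
      ∀ A' : Finset V, A' ⊆ U → H.IsClique (A' : Set V) → A'.card ≤ A.card := by
    intro H
    have hne : (U.powerset.filter (fun A : Finset V => H.IsClique (A : Set V))).Nonempty := by
      refine ⟨∅, ?_⟩
      rw [mem_filter]
      exact ⟨empty_mem_powerset _, by simp⟩
    obtain ⟨A, hA, hmax⟩ := exists_max_image _ card hne
    rw [mem_filter, mem_powerset] at hA
    refine ⟨A, hA.1, hA.2, fun A' h1 h2 => hmax A' ?_⟩
    rw [mem_filter, mem_powerset]
    exact ⟨h1, h2⟩
  obtain ⟨A, hA, cA, mA⟩ := hex G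
  obtain ⟨B, hB, cB, mB⟩ := hex Gᶜ
  refine ⟨A, B, hA, hB, cA, cB, ?_⟩
  by_contra hcon
  push Not at hcon
  have h1 : ((A.card + B.card).choose A.card : ℝ) ≤ U.card :=
    (choose_le_exp A.card B.card p hcon.le).trans hU
  have h2 : (A.card + B.card).choose A.card ≤ U.card := by exact_mod_cast h1
  rcases Pool.Agent.H818R2.Ram.erdos_szekeres G _ A.card B.card rfl U h2 with h | h
  · obtain ⟨S, hS, hS2⟩ := h
    rw [SimpleGraph.isNClique_iff] at hS2
    have := mA S hS hS2.1
    omega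
  · obtain ⟨S, hS, hS2⟩ := h
    rw [SimpleGraph.isNClique_iff] at hS2
    have := mB S hS hS2.1
    omega

/-- the finite form of the upper bound -/
theorem finite_bound {n : ℕ} {G : SimpleGraph (Fin n)} {t k : ℕ} (hG : Side G t) (ht : 1 ≤ t)
    (h1 : G.CliqueFree k) (h2 : Gᶜ.CliqueFree k) (i : ℕ) (hi : k ≤ 2 ^ i * t) (hk : 1 ≤ k) :
    (n : ℝ) < 2 ^ ((t + 1) * (2 * i)) * (Real.exp (3 * t) + 1) := by
  by_contra hcon
  push Not at hcon
  set M := ⌈Real.exp (3 * (t : ℝ))⌉₊ with hM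
  have hM1 : 1 ≤ M := Nat.one_le_ceil_iff.2 (Real.exp_pos _)
  have hMlt : (M : ℝ) < Real.exp (3 * t) + 1 := Nat.ceil_lt_add_one (Real.exp_pos _).le
  have hcard : (2 ^ (t + 1)) ^ (2 * i) * M ≤ (univ : Finset (Fin n)).card := by
    rw [card_univ, Fintype.card_fin]
    have : (((2 ^ (t + 1)) ^ (2 * i) * M : ℕ) : ℝ) ≤ (n : ℝ) := by
      push_cast
      rw [← pow_mul]
      refine le_trans ?_ hcon
      exact mul_le_mul_of_nonneg_left hMlt.le (by positivity)
    exact_mod_cast this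
  obtain ⟨A, B, _, _, cA, cB, h3⟩ := iterate_prod hG M (t ^ 2) hM1
    (fun U hU => base_prod G t U ((Nat.le_ceil _).trans (Nat.cast_le.2 hU))) (2 * i) univ hcard
  have hA : A.card < k := by
    by_contra hh
    push Not at hh
    obtain ⟨S, hS, hS2⟩ := exists_subset_card_eq hh
    exact h1 S ((SimpleGraph.isNClique_iff _).2 ⟨cA.subset (by exact_mod_cast hS), hS2⟩)
  have hB : B.card < k := by
    by_contra hh
    push Not at hh
    obtain ⟨S, hS, hS2⟩ := exists_subset_card_eq hh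
    exact h2 S ((SimpleGraph.isNClique_iff _).2 ⟨cB.subset (by exact_mod_cast hS), hS2⟩)
  have h4 : 2 ^ (2 * i) * t ^ 2 = (2 ^ i * t) ^ 2 := by ring
  rw [h4] at h3
  have h5 : A.card * B.card < k * k := by
    exact Nat.mul_lt_mul'' hA hB
  have h6 : k * k ≤ (2 ^ i * t) ^ 2 := by rw [sq]; exact Nat.mul_le_mul hi hi
  omega

/-- **Upper bound.** -/
theorem upper {n : ℕ} {G : SimpleGraph (Fin n)} {t k : ℕ} (hG : Side G t) (ht : 1 ≤ t)
    (hn : 1 ≤ n) (hk : 1 ≤ k) (h1 : G.CliqueFree k) (h2 : Gᶜ.CliqueFree k) :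
    Real.log n ≤ 14 * (t * Real.log (2 + (k : ℝ) / t)) := by
  have ht0 : (0 : ℝ) < t := by exact_mod_cast ht
  have ht1 : (1 : ℝ) ≤ t := by exact_mod_cast ht
  have hk0 : (0 : ℝ) < k := by exact_mod_cast hk
  have hn0 : (0 : ℝ) < n := by exact_mod_cast hn
  have hl2 : 0.69 < Real.log 2 := lt_trans (by norm_num) Real.log_two_gt_d9
  have hl2' : Real.log 2 < 0.7 := lt_trans Real.log_two_lt_d9 (by norm_num)
  have hL : Real.log 2 ≤ Real.log (2 + (k : ℝ) / t) := by
    apply Real.log_le_log (by norm_num)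
    have : (0 : ℝ) ≤ (k : ℝ) / t := by positivity
    linarith
  have key : ∀ i : ℕ, k ≤ 2 ^ i * t →
      Real.log n ≤ ((t : ℝ) + 1) * (2 * i) * Real.log 2 + 3 * t + Real.log 2 := by
    intro i hi
    have h3 := finite_bound hG ht h1 h2 i hi hk
    have h4 : Real.exp (3 * (t : ℝ)) + 1 ≤ 2 * Real.exp (3 * t) := by
      have : 1 ≤ Real.exp (3 * (t : ℝ)) := Real.one_le_exp (by positivity)
      linarith
    have h5 : (n : ℝ) ≤ 2 ^ ((t + 1) * (2 * i)) * (2 * Real.exp (3 * t)) :=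
      h3.le.trans (mul_le_mul_of_nonneg_left h4 (by positivity))
    calc Real.log n ≤ Real.log (2 ^ ((t + 1) * (2 * i)) * (2 * Real.exp (3 * t))) :=
          Real.log_le_log hn0 h5
      _ = ((t : ℝ) + 1) * (2 * i) * Real.log 2 + 3 * t + Real.log 2 := by
          rw [Real.log_mul (by positivity) (by positivity),
            Real.log_mul (by norm_num) (by positivity), Real.log_pow, Real.log_exp]
          push_cast
          ring
  rcases le_or_gt k t with hkt | hkt
  · have h3 := key 0 (by simpa using hkt)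
    simp only [Nat.cast_zero, mul_zero, zero_mul, zero_add] at h3
    nlinarith
  · -- the least `i` with `k ≤ 2 ^ i t`
    have hex : ∃ i : ℕ, k ≤ 2 ^ i * t := by
      refine ⟨k, ?_⟩
      calc k ≤ 2 ^ k := Nat.lt_two_pow_self.le
        _ = 2 ^ k * 1 := by ring
        _ ≤ 2 ^ k * t := Nat.mul_le_mul_left _ ht
    classical
    set i := Nat.find hex with hi
    have hi1 : k ≤ 2 ^ i * t := Nat.find_spec hex
    have hi0 : 1 ≤ i := by
      rcases Nat.eq_zero_or_pos i with h0 | h0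
      · rw [h0] at hi1
        simp at hi1
        omega
      · exact h0
    have hlt : 2 ^ (i - 1) * t < k := by
      have := Nat.find_min hex (m := i - 1) (by omega)
      omega
    have hlt' : (2 : ℝ) ^ i * t < 2 * k := by
      have h4 : 2 ^ i * t < 2 * k := by
        have : 2 ^ i = 2 * 2 ^ (i - 1) := by
          rw [← pow_succ']
          congr 1
          omega
        rw [this]; nlinarith
      exact_mod_cast h4
    have hpow : (2 : ℝ) ^ i ≤ (2 + (k : ℝ) / t) ^ 2 := by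
      have h5 : (2 : ℝ) ^ i ≤ 2 * k / t := by
        rw [le_div_iff₀ ht0]; exact hlt'.le
      have h6 : (0 : ℝ) ≤ (k : ℝ) / t := by positivity
      have h7 : 2 * (k : ℝ) / t = 2 * (k / t) := by ring
      nlinarith
    have hilog : (i : ℝ) * Real.log 2 ≤ 2 * Real.log (2 + (k : ℝ) / t) := by
      have := Real.log_le_log (by positivity) hpow
      rw [Real.log_pow, Real.log_pow] at this
      simpa using this
    have h3 := key i hi1
    have h8 : ((t : ℝ) + 1) * (2 * i) * Real.log 2 ≤ 2 * t * (2 * (2 * Real.log (2 + (k : ℝ) / t))) := by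
      calc ((t : ℝ) + 1) * (2 * i) * Real.log 2 = ((t : ℝ) + 1) * (2 * (i * Real.log 2)) := by ring
        _ ≤ (2 * t) * (2 * (2 * Real.log (2 + (k : ℝ) / t))) := by
            apply mul_le_mul (by linarith) (by linarith) (by positivity) (by positivity)
    nlinarith

end Pool.Agent.Helper141.CC
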