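import Mathlib

set_option autoImplicit false

/-!
# Ramsey colourings of small communication complexity: protocols and large monochromatic pairs
-/

namespace Pool.Agent.Helper141.CC

open Finset

/-- Deterministic two-player protocols for functions of a pair `(x, y)`; in a step either the first
player announces one bit of information on `x`, or the second player one bit on `y`, or the
players compare a real number depending on `x` with a real number depending on `y`. -/
inductive Protocol (V : Type) : Type
  | stop (b : Bool) : Protocol V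
  | alice (f : V → Bool) (p q : Protocol V) : Protocol V
  | bob (f : V → Bool) (p q : Protocol V) : Protocol V
  | compare (f g : V → ℝ) (p q : Protocol V) : Protocol V

open Classical in
/-- The answer of the protocol on the pair `(x, y)`. -/
noncomputable def Protocol.run {V : Type} : Protocol V → V → V → Bool
  | .stop b, _, _ => b
  | .alice f p q, x, y => if f x = true then p.run x y else q.run x y
  | .bob f p q, x, y => if f y = true then p.run x y else q.run x y
  | .compare f g p q, x, y => if f x ≤ g y then p.run x y else q.run x y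

/-- The number of steps of the protocol in the worst case. -/
def Protocol.cost {V : Type} : Protocol V → ℕ
  | .stop _ => 0
  | .alice _ p q => max p.cost q.cost + 1
  | .bob _ p q => max p.cost q.cost + 1
  | .compare _ _ p q => max p.cost q.cost + 1

/-- The protocol makes no comparisons. -/
def Protocol.Plain {V : Type} : Protocol V → Prop
  | .stop _ => True
  | .alice _ p q => p.Plain ∧ q.Plain
  | .bob _ p q => p.Plain ∧ q.Plain
  | .compare _ _ _ _ => False

/-- Large pairs of sets between which only one colour occurs: in all disjoint sets `A`, `B` there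
are parts `A'`, `B'` with `|A| ≤ 2 ^ t |A'|`, `|B| ≤ 2 ^ t |B'|` such that all pairs in `A' × B'`
have the same colour. -/
def Side {V : Type} (G : SimpleGraph V) (t : ℕ) : Prop :=
  ∀ A B : Finset V, Disjoint A B → B.Nonempty → A.Nonempty →
    ∃ A' B' : Finset V, A' ⊆ A ∧ B' ⊆ B ∧ A.card ≤ 2 ^ t * A'.card ∧ B.card ≤ 2 ^ t * B'.card ∧
      ((∀ x ∈ A', ∀ y ∈ B', G.Adj x y) ∨ ∀ x ∈ A', ∀ y ∈ B', ¬ G.Adj x y)

variable {V : Type}

open Classical in
/-- a median of a real function on a finite set -/
theorem median (A : Finset V) (f : V → ℝ) :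
    ∃ c : ℝ, A.card ≤ 2 * (A.filter (fun x => f x ≤ c)).card ∧
      A.card ≤ 2 * (A.filter (fun x => c ≤ f x)).card := by
  rcases A.eq_empty_or_nonempty with rfl | hA
  · exact ⟨0, by simp, by simp⟩
  set S := (A.image f).filter (fun c => A.card ≤ 2 * (A.filter (fun x => f x ≤ c)).card) with hS
  have hSne : S.Nonempty := by
    obtain ⟨m, hm, hmax⟩ := exists_max_image A f hA
    refine ⟨f m, ?_⟩
    rw [hS, mem_filter]
    refine ⟨mem_image_of_mem f hm, ?_⟩
    have : A.filter (fun x => f x ≤ f m) = A := filter_true_of_mem hmax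
    rw [this]; omega
  obtain ⟨c, hc, hmin⟩ := exists_min_image S id hSne
  rw [hS, mem_filter] at hc
  refine ⟨c, hc.2, ?_⟩
  by_contra hcon
  push Not at hcon
  have hsplit : A.card = (A.filter (fun x => c ≤ f x)).card + (A.filter (fun x => ¬ c ≤ f x)).card :=
    (card_filter_add_card_filter_not _).symm
  set L := A.filter (fun x => ¬ c ≤ f x) with hL
  have hLne : L.Nonempty := by
    rw [← card_pos]; omega
  obtain ⟨m, hm, hmax⟩ := exists_max_image L f hLne
  have hmA : m ∈ A ∧ ¬ c ≤ f m := by rw [hL, mem_filter] at hm; exact hm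
  have hin : f m ∈ S := by
    rw [hS, mem_filter]
    refine ⟨mem_image_of_mem f hmA.1, ?_⟩
    have hsub : L ⊆ A.filter (fun x => f x ≤ f m) := by
      intro x hx
      have hx2 := hx
      rw [hL, mem_filter] at hx
      rw [mem_filter]
      exact ⟨hx.1, hmax x hx2⟩
    have := card_le_card hsub
    omega
  have := hmin (f m) hin
  simp only [id] at this
  exact hmA.2 this

open Classical in
/-- a comparison is constant on large parts -/
theorem halve (A B : Finset V) (f g : V → ℝ) :
    ∃ A' B' : Finset V, A' ⊆ A ∧ B' ⊆ B ∧ A.card ≤ 2 * A'.card ∧ B.card ≤ 2 * B'.card ∧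
      ((∀ x ∈ A', ∀ y ∈ B', f x ≤ g y) ∨ ∀ x ∈ A', ∀ y ∈ B', ¬ f x ≤ g y) := by
  obtain ⟨c, h1, h2⟩ := median A f
  have hsplit : B.card = (B.filter (fun y => c ≤ g y)).card + (B.filter (fun y => ¬ c ≤ g y)).card :=
    (card_filter_add_card_filter_not _).symm
  rcases le_total B.card (2 * (B.filter (fun y => c ≤ g y)).card) with h | h
  · refine ⟨A.filter (fun x => f x ≤ c), B.filter (fun y => c ≤ g y), filter_subset _ _,
      filter_subset _ _, h1, h, Or.inl ?_⟩
    intro x hx y hy
    rw [mem_filter] at hx hy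
    exact hx.2.trans hy.2
  · refine ⟨A.filter (fun x => c ≤ f x), B.filter (fun y => ¬ c ≤ g y), filter_subset _ _,
      filter_subset _ _, h2, by omega, Or.inr ?_⟩
    intro x hx y hy
    rw [mem_filter] at hx hy
    have := hx.2
    have := hy.2
    push Not at *
    linarith

open Classical in
theorem halve_bit (A : Finset V) (f : V → Bool) :
    ∃ A' ⊆ A, A.card ≤ 2 * A'.card ∧ ((∀ x ∈ A', f x = true) ∨ ∀ x ∈ A', ¬ f x = true) := by
  have hsplit : A.card = (A.filter (fun x => f x = true)).card +
      (A.filter (fun x => ¬ f x = true)).card :=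
    (card_filter_add_card_filter_not _).symm
  rcases le_total (A.filter (fun x => ¬ f x = true)).card (A.filter (fun x => f x = true)).card
    with h | h
  · refine ⟨A.filter (fun x => f x = true), filter_subset _ _, by omega, Or.inl ?_⟩
    intro x hx
    exact (mem_filter.1 hx).2
  · refine ⟨A.filter (fun x => ¬ f x = true), filter_subset _ _, by omega, Or.inr ?_⟩
    intro x hx
    exact (mem_filter.1 hx).2

/-- a protocol of cost at most `t` is constant on large rectangles -/
theorem run_const (P : Protocol V) : ∀ t : ℕ, P.cost ≤ t → ∀ A B : Finset V,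
    ∃ A' B' : Finset V, A' ⊆ A ∧ B' ⊆ B ∧ A.card ≤ 2 ^ t * A'.card ∧ B.card ≤ 2 ^ t * B'.card ∧
      ∃ b : Bool, ∀ x ∈ A', ∀ y ∈ B', P.run x y = b := by
  induction P with
  | stop b =>
    intro t _ A B
    refine ⟨A, B, Subset.rfl, Subset.rfl, ?_, ?_, b, fun x _ y _ => rfl⟩
    · exact Nat.le_mul_of_pos_left _ (by positivity)
    · exact Nat.le_mul_of_pos_left _ (by positivity)
  | alice f p q ihp ihq =>
    intro t ht A B
    simp only [Protocol.cost] at ht
    obtain ⟨s, rfl⟩ : ∃ s, t = s + 1 := ⟨t - 1, by omega⟩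
    obtain ⟨A1, hA1, hc, hd⟩ := halve_bit A f
    rcases hd with hd | hd
    · obtain ⟨A2, B2, h1, h2, h3, h4, b, h5⟩ := ihp s (by omega) A1 B
      refine ⟨A2, B2, h1.trans hA1, h2, ?_, ?_, b, ?_⟩
      · rw [pow_succ]; nlinarith
      · rw [pow_succ]; nlinarith
      · intro x hx y hy
        simp only [Protocol.run]
        rw [if_pos (hd x (h1 hx))]
        exact h5 x hx y hy
    · obtain ⟨A2, B2, h1, h2, h3, h4, b, h5⟩ := ihq s (by omega) A1 B
      refine ⟨A2, B2, h1.trans hA1, h2, ?_, ?_, b, ?_⟩
      · rw [pow_succ]; nlinarith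
      · rw [pow_succ]; nlinarith
      · intro x hx y hy
        simp only [Protocol.run]
        rw [if_neg (hd x (h1 hx))]
        exact h5 x hx y hy
  | bob f p q ihp ihq =>
    intro t ht A B
    simp only [Protocol.cost] at ht
    obtain ⟨s, rfl⟩ : ∃ s, t = s + 1 := ⟨t - 1, by omega⟩
    obtain ⟨B1, hB1, hc, hd⟩ := halve_bit B f
    rcases hd with hd | hd
    · obtain ⟨A2, B2, h1, h2, h3, h4, b, h5⟩ := ihp s (by omega) A B1
      refine ⟨A2, B2, h1, h2.trans hB1, ?_, ?_, b, ?_⟩
      · rw [pow_succ]; nlinarith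
      · rw [pow_succ]; nlinarith
      · intro x hx y hy
        simp only [Protocol.run]
        rw [if_pos (hd y (h2 hy))]
        exact h5 x hx y hy
    · obtain ⟨A2, B2, h1, h2, h3, h4, b, h5⟩ := ihq s (by omega) A B1
      refine ⟨A2, B2, h1, h2.trans hB1, ?_, ?_, b, ?_⟩
      · rw [pow_succ]; nlinarith
      · rw [pow_succ]; nlinarith
      · intro x hx y hy
        simp only [Protocol.run]
        rw [if_neg (hd y (h2 hy))]
        exact h5 x hx y hy
  | compare f g p q ihp ihq =>
    intro t ht A B
    simp only [Protocol.cost] at ht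
    obtain ⟨s, rfl⟩ : ∃ s, t = s + 1 := ⟨t - 1, by omega⟩
    obtain ⟨A1, B1, hA1, hB1, hc, hc', hd⟩ := halve A B f g
    rcases hd with hd | hd
    · obtain ⟨A2, B2, h1, h2, h3, h4, b, h5⟩ := ihp s (by omega) A1 B1
      refine ⟨A2, B2, h1.trans hA1, h2.trans hB1, ?_, ?_, b, ?_⟩
      · rw [pow_succ]; nlinarith
      · rw [pow_succ]; nlinarith
      · intro x hx y hy
        simp only [Protocol.run]
        rw [if_pos (hd x (h1 hx) y (h2 hy))]
        exact h5 x hx y hy
    · obtain ⟨A2, B2, h1, h2, h3, h4, b, h5⟩ := ihq s (by omega) A1 B1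
      refine ⟨A2, B2, h1.trans hA1, h2.trans hB1, ?_, ?_, b, ?_⟩
      · rw [pow_succ]; nlinarith
      · rw [pow_succ]; nlinarith
      · intro x hx y hy
        simp only [Protocol.run]
        rw [if_neg (hd x (h1 hx) y (h2 hy))]
        exact h5 x hx y hy

/-- colourings computed by protocols have large monochromatic pairs -/
theorem side_of_protocol (G : SimpleGraph V) (P : Protocol V) (t : ℕ) (hP : P.cost ≤ t)
    (h : ∀ x y, x ≠ y → (P.run x y = true ↔ G.Adj x y)) : Side G t := by
  intro A B hAB _ _
  obtain ⟨A', B', h1, h2, h3, h4, b, h5⟩ := run_const P t hP A B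
  refine ⟨A', B', h1, h2, h3, h4, ?_⟩
  have hne : ∀ x ∈ A', ∀ y ∈ B', x ≠ y := by
    intro x hx y hy hxy
    subst hxy
    exact disjoint_left.1 hAB (h1 hx) (h2 hy)
  cases b with
  | true =>
    left
    intro x hx y hy
    exact (h x y (hne x hx y hy)).1 (h5 x hx y hy)
  | false =>
    right
    intro x hx y hy hadj
    have := (h x y (hne x hx y hy)).2 hadj
    rw [h5 x hx y hy] at this
    exact Bool.noConfusion this

open Classical in
/-- colourings covered by few monochromatic rectangles have large monochromatic pairs -/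
theorem side_of_cover (G : SimpleGraph V) (t m : ℕ) (hm : m ≤ 2 ^ t) (R S : Fin m → Set V)
    (c : Fin m → Bool) (hcov : ∀ x y, x ≠ y → ∃ i, x ∈ R i ∧ y ∈ S i)
    (hmono : ∀ i x y, x ≠ y → x ∈ R i → y ∈ S i → (c i = true ↔ G.Adj x y)) : Side G t := by
  intro A B hAB hBne hAne
  have hne : ∀ x ∈ A, ∀ y ∈ B, x ≠ y := by
    intro x hx y hy hxy
    subst hxy
    exact disjoint_left.1 hAB hx hy
  have hpos : 0 < A.card * B.card := Nat.mul_pos (card_pos.2 hAne) (card_pos.2 hBne)
  have key : ∃ i : Fin m, A.card * B.card ≤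
      2 ^ t * ((A.filter (fun x => x ∈ R i)).card * (B.filter (fun y => y ∈ S i)).card) := by
    by_contra hcon
    push Not at hcon
    have h1 : A ×ˢ B ⊆ univ.biUnion (fun i : Fin m =>
        (A.filter (fun x => x ∈ R i)) ×ˢ (B.filter (fun y => y ∈ S i))) := by
      intro z hz
      rw [mem_product] at hz
      obtain ⟨i, hi1, hi2⟩ := hcov z.1 z.2 (hne _ hz.1 _ hz.2)
      rw [mem_biUnion]
      refine ⟨i, mem_univ _, ?_⟩
      rw [mem_product, mem_filter, mem_filter]
      exact ⟨⟨hz.1, hi1⟩, hz.2, hi2⟩
    have h2 := (card_le_card h1).trans card_biUnion_le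
    rw [card_product] at h2
    rcases Nat.eq_zero_or_pos m with h0 | h0
    · subst h0
      rw [univ_eq_empty, sum_empty] at h2
      omega
    · have h3 : ∑ i : Fin m, 2 ^ t * ((A.filter (fun x => x ∈ R i)) ×ˢ
          (B.filter (fun y => y ∈ S i))).card < ∑ _i : Fin m, A.card * B.card := by
        apply sum_lt_sum_of_nonempty
        · exact ⟨⟨0, h0⟩, mem_univ _⟩
        · intro i _
          rw [card_product]
          exact hcon i
      rw [← mul_sum, sum_const, card_univ, Fintype.card_fin, smul_eq_mul] at h3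
      have h4 : m * (A.card * B.card) ≤ 2 ^ t * (A.card * B.card) := Nat.mul_le_mul_right _ hm
      have h5 := lt_of_mul_lt_mul_left (h3.trans_le h4) (Nat.zero_le _)
      exact absurd h2 (not_le.2 h5)
  obtain ⟨i, hi⟩ := key
  refine ⟨A.filter (fun x => x ∈ R i), B.filter (fun y => y ∈ S i), filter_subset _ _,
    filter_subset _ _, ?_, ?_, ?_⟩
  · have hB : 0 < B.card := card_pos.2 hBne
    have h1 : (B.filter (fun y => y ∈ S i)).card ≤ B.card := card_filter_le _ _
    have h2 : A.card * B.card ≤ (2 ^ t * (A.filter (fun x => x ∈ R i)).card) * B.card := by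
      calc A.card * B.card ≤ _ := hi
        _ ≤ 2 ^ t * ((A.filter (fun x => x ∈ R i)).card * B.card) :=
            Nat.mul_le_mul_left _ (Nat.mul_le_mul_left _ h1)
        _ = _ := by ring
    exact Nat.le_of_mul_le_mul_right h2 hB
  · have hA : 0 < A.card := card_pos.2 hAne
    have h1 : (A.filter (fun x => x ∈ R i)).card ≤ A.card := card_filter_le _ _
    have h2 : B.card * A.card ≤ (2 ^ t * (B.filter (fun y => y ∈ S i)).card) * A.card := by
      calc B.card * A.card = A.card * B.card := Nat.mul_comm _ _
        _ ≤ _ := hi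
        _ ≤ 2 ^ t * (A.card * (B.filter (fun y => y ∈ S i)).card) :=
            Nat.mul_le_mul_left _ (Nat.mul_le_mul_right _ h1)
        _ = _ := by ring
    exact Nat.le_of_mul_le_mul_right h2 hA
  · cases hc : c i with
    | true =>
      left
      intro x hx y hy
      rw [mem_filter] at hx hy
      exact (hmono i x y (hne x hx.1 y hy.1) hx.2 hy.2).1 hc
    | false =>
      right
      intro x hx y hy hadj
      rw [mem_filter] at hx hy
      have := (hmono i x y (hne x hx.1 y hy.1) hx.2 hy.2).2 hadj
      rw [hc] at this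
      exact Bool.noConfusion this

end Pool.Agent.Helper141.CC
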